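import Pool.Agent.Helper58.NW.CRXH
import Pool.Agent.Helper4.NW.W
import Pool.Agent.Helper52.Wq2.Minor

/-!
# NW-CRX: the blocks
-/

set_option autoImplicit false

namespace Pool.Agent.Helper58.NW

open Pool.Agent.Helper52.Wq2 Pool.Agent.Helper61.NW Pool.Agent.Helper4.NW


universe u

/-- The column. -/
def col (i : ℕ) (b : Bool) : ℕ := if b then 2 * i + 1 else 2 * i

theorem col_inj {i i' : ℕ} {b b' : Bool} (h : col i b = col i' b') : i = i' ∧ b = b' := by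
  cases b <;> cases b' <;> simp [col] at h ⊢ <;> omega

theorem conn_seg {W : Type u} {G : SimpleGraph W} (f : ℤ → W) (hf : ∀ y, G.Adj (f y) (f (y + 1)))
    (α β : ℤ) (hab : α < β) : Conn G {w | ∃ y, α ≤ y ∧ y < β ∧ w = f y} := by
  refine conn_of_root (r := f α) ⟨α, le_rfl, hab, rfl⟩ ?_
  rintro x ⟨y, h1, h2, rfl⟩
  have key : ∀ t : ℕ, α + t < β → Relation.ReflTransGen
      (fun a b => G.Adj a b ∧ b ∈ {w | ∃ y, α ≤ y ∧ y < β ∧ w = f y}) (f α) (f (α + t)) := by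
    intro t
    induction t with
    | zero =>
      intro _
      simp only [Nat.cast_zero, add_zero]
      exact Relation.ReflTransGen.refl
    | succ t ih =>
      intro ht
      push_cast at ht ⊢
      refine (ih (by omega)).tail ⟨?_, α + t + 1, by omega, by omega, by rw [add_assoc]⟩
      have := hf (α + t)
      rwa [add_assoc] at this
  have := key (y - α).toNat (by rw [Int.toNat_of_nonneg (by omega)]; omega)
  rwa [Int.toNat_of_nonneg (by omega), show α + (y - α) = y by ring] at this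

theorem wg_of_cols {W : Type u} (G : SimpleGraph W) (p : ℕ) (m : ℤ) (hm : 0 < m) (P : ℕ → ℤ → W)
    (hinj : ∀ c c' y y', c < 2 * p → c' < 2 * p → P c y = P c' y' → c = c' ∧ y = y')
    (hv : ∀ c y, G.Adj (P c y) (P c (y + 1)))
    (hg : ∀ c, ∃ a b : ℤ, |a - b| ≤ 1 ∧ ∀ k : ℤ, G.Adj (P c (a + m * k)) (P (c + 1) (b + m * k)))
    (hx : ∀ i : ℕ, ∃ y : ℤ, ∀ k : ℤ, G.Adj (P (2 * i) (y + m * k)) (P (2 * i + 1) (y + 1 + m * k)) ∧
      G.Adj (P (2 * i) (y + 1 + m * k)) (P (2 * i + 1) (y + m * k))) : Mn (Wg p) G := by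
  have hx' : ∀ i : ℕ, ∃ c : ℤ, 0 ≤ c ∧ c < m ∧ ∀ k : ℤ,
      G.Adj (P (2 * i) (c - 1 + m * k)) (P (2 * i + 1) (c + m * k)) ∧
      G.Adj (P (2 * i) (c + m * k)) (P (2 * i + 1) (c - 1 + m * k)) := by
    intro i
    obtain ⟨y, hy⟩ := hx i
    refine ⟨(y + 1) % m, Int.emod_nonneg _ hm.ne', Int.emod_lt_of_pos _ hm, fun k => ?_⟩
    have h1 := Int.emod_add_mul_ediv (y + 1) m
    have e1 : (y + 1) % m - 1 + m * k = y + m * (k - (y + 1) / m) := by linear_combination h1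
    have e2 : (y + 1) % m + m * k = y + 1 + m * (k - (y + 1) / m) := by linear_combination h1
    rw [e1, e2]
    exact hy _
  choose c hc0 hcm hcr using hx'
  let Φ : ℤ × Fin p × Bool → Set W := fun v =>
    {w | ∃ y, c v.2.1 + 4 * m * v.1 ≤ y ∧ y < c v.2.1 + 4 * m * (v.1 + 1) ∧
      w = P (col v.2.1 v.2.2) y}
  -- adjacencies
  have L1 : ∀ (x : ℤ) (i : Fin p), ∃ a ∈ Φ (x, i, false), ∃ b ∈ Φ (x, i, true), G.Adj a b := by
    intro x i
    refine ⟨_, ⟨c i - 1 + m * (4 * x + 1), ?_, ?_, rfl⟩, _, ⟨c i + m * (4 * x + 1), ?_, ?_, rfl⟩,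
      (hcr i (4 * x + 1)).1⟩ <;> dsimp only <;> nlinarith
  have L2 : ∀ (x : ℤ) (i : Fin p) (b : Bool),
      ∃ a ∈ Φ (x, i, b), ∃ a' ∈ Φ (x + 1, i, b), G.Adj a a' := by
    intro x i b
    refine ⟨_, ⟨c i + 4 * m * (x + 1) - 1, ?_, ?_, rfl⟩, _, ⟨c i + 4 * m * (x + 1) - 1 + 1, ?_, ?_, rfl⟩,
      hv _ _⟩ <;> dsimp only <;> nlinarith
  have L3 : ∀ (x : ℤ) (i : Fin p), ∃ a ∈ Φ (x, i, false), ∃ b ∈ Φ (x + 1, i, true), G.Adj a b := by
    intro x i
    refine ⟨_, ⟨c i - 1 + m * (4 * (x + 1)), ?_, ?_, rfl⟩, _, ⟨c i + m * (4 * (x + 1)), ?_, ?_, rfl⟩,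
      (hcr i (4 * (x + 1))).1⟩ <;> dsimp only <;> nlinarith
  have L4 : ∀ (x : ℤ) (i : Fin p), ∃ a ∈ Φ (x, i, true), ∃ b ∈ Φ (x + 1, i, false), G.Adj a b := by
    intro x i
    refine ⟨_, ⟨c i - 1 + m * (4 * (x + 1)), ?_, ?_, rfl⟩, _, ⟨c i + m * (4 * (x + 1)), ?_, ?_, rfl⟩,
      (hcr i (4 * (x + 1))).2.symm⟩ <;> dsimp only <;> nlinarith
  have L5 : ∀ (x : ℤ) (i i' : Fin p), (i' : ℕ) = i + 1 →
      ∃ a ∈ Φ (x, i, true), ∃ b ∈ Φ (x, i', false), G.Adj a b := by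
    intro x i i' hi
    obtain ⟨a, b, hab, hh⟩ := hg (2 * i + 1)
    have h1 := Int.emod_add_mul_ediv a m
    have h2 := Int.emod_nonneg a hm.ne'
    have h3 := Int.emod_lt_of_pos a hm
    have hk := hh (4 * x + 2 - a / m)
    have e1 : a + m * (4 * x + 2 - a / m) = a % m + m * (4 * x + 2) := by linear_combination -h1
    have e2 : b + m * (4 * x + 2 - a / m) = (b - a) + (a % m + m * (4 * x + 2)) := by
      linear_combination -h1
    rw [e1, e2] at hk
    rw [abs_le] at hab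
    have b1 := hc0 i
    have b2 := hcm i
    have b3 := hc0 i'
    have b4 := hcm i'
    have hcol : col i' false = 2 * i + 1 + 1 := by simp [col]; omega
    refine ⟨_, ⟨a % m + m * (4 * x + 2), ?_, ?_, rfl⟩, _,
      ⟨(b - a) + (a % m + m * (4 * x + 2)), ?_, ?_, rfl⟩, ?_⟩
    · dsimp only; nlinarith
    · dsimp only; nlinarith
    · dsimp only; nlinarith
    · dsimp only; nlinarith
    · dsimp only
      rw [hcol]
      exact hk
  have sw : ∀ u v : ℤ × Fin p × Bool, (∃ a ∈ Φ u, ∃ b ∈ Φ v, G.Adj a b) →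
      ∃ a ∈ Φ v, ∃ b ∈ Φ u, G.Adj a b := by
    rintro u v ⟨a, ha, b, hb, hab⟩
    exact ⟨b, hb, a, ha, hab.symm⟩
  have LL : ∀ (x : ℤ) (i : Fin p) (b b' : Bool),
      ∃ a ∈ Φ (x, i, b), ∃ a' ∈ Φ (x + 1, i, b'), G.Adj a a' := by
    intro x i b b'
    cases b <;> cases b'
    · exact L2 x i false
    · exact L3 x i
    · exact L4 x i
    · exact L2 x i true
  have key : ∀ u v : ℤ × Fin p × Bool, u ≠ v →
      ((u.2.1 = v.2.1 ∧ |u.1 - v.1| ≤ 1) ∨
        (u.1 = v.1 ∧ (v.2.1 : ℕ) = u.2.1 + 1 ∧ u.2.2 = true ∧ v.2.2 = false)) →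
      ∃ a ∈ Φ u, ∃ b ∈ Φ v, G.Adj a b := by
    rintro ⟨x, i, b⟩ ⟨x', i', b'⟩ hne (⟨h1, h2⟩ | ⟨h1, h2, h3, h4⟩)
    · dsimp only at h1 h2
      subst h1
      rw [abs_le] at h2
      rcases (by omega : x' = x ∨ x' = x + 1 ∨ x = x' + 1) with h3 | h3 | h3
      · subst h3
        cases b <;> cases b'
        · exact absurd rfl hne
        · exact L1 x' i
        · exact sw _ _ (L1 x' i)
        · exact absurd rfl hne
      · subst h3
        exact LL x i b b'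
      · subst h3
        exact sw _ _ (LL x' i b' b)
    · dsimp only at h1 h2 h3 h4
      subst h1 h3 h4
      exact L5 x i i' h2
  refine ⟨Φ, ?_, ?_, ?_⟩
  · rintro ⟨x, i, b⟩
    exact conn_seg (fun y => P (col i b) y) (fun y => hv _ y) _ _ (by dsimp only; nlinarith)
  · rintro ⟨x, i, b⟩ ⟨x', i', b'⟩ w ⟨y, h1, h2, rfl⟩ ⟨y', h3, h4, h5⟩
    dsimp only at h1 h2 h3 h4 h5
    have hcl : ∀ (i : Fin p) (b : Bool), col i b < 2 * p := by
      intro i b
      have := i.2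
      unfold col
      split_ifs <;> omega
    obtain ⟨h6, h7⟩ := hinj _ _ _ _ (hcl i b) (hcl i' b') h5
    obtain ⟨h8, h9⟩ := col_inj h6
    have h10 : i = i' := Fin.ext h8
    subst h10 h9 h7
    have h11 : x < x' + 1 := by
      have : 4 * m * x < 4 * m * (x' + 1) := by linarith
      exact lt_of_mul_lt_mul_left this (by linarith)
    have h12 : x' < x + 1 := by
      have : 4 * m * x' < 4 * m * (x + 1) := by linarith
      exact lt_of_mul_lt_mul_left this (by linarith)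
    have : x = x' := by omega
    rw [this]
  · intro u v huv
    obtain ⟨hne, h1 | h1⟩ := (SimpleGraph.fromRel_adj _ _ _).1 huv
    · exact key u v hne h1
    · exact sw _ _ (key v u hne.symm h1)

theorem crx : CrxStmt.{u} := by
  intro Γ _ S h s H n m T hn e hc hcr q hq
  obtain ⟨A, P, h1, h2, h3, h4⟩ := cols T hn e hc hcr
  have hW : Mn (Wg (q + 1)) (cay S) := by
    refine wg_of_cols (cay S) (q + 1) m (by exact_mod_cast T.mpos)
      (fun c y => P (A + (c : ℕ)) y) ?_ ?_ ?_ ?_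
    · intro c c' y y' hc1 hc2 hh
      obtain ⟨h5, h6⟩ := h1 _ _ _ _ hh
      refine ⟨?_, h6⟩
      have h7 : ((c : ℕ) : ZMod n) = (c' : ℕ) := add_left_cancel h5
      rw [ZMod.natCast_eq_natCast_iff'] at h7
      rwa [Nat.mod_eq_of_lt (by omega), Nat.mod_eq_of_lt (by omega)] at h7
    · intro c y
      exact h2 _ _
    · intro c
      obtain ⟨a, b, hab, hh⟩ := h3 (A + (c : ℕ))
      refine ⟨a, b, hab, fun k => ?_⟩
      have e1 : A + ((c + 1 : ℕ) : ZMod n) = A + (c : ℕ) + 1 := by push_cast; ring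
      show (cay S).Adj (P (A + (c : ℕ)) (a + m * k)) (P (A + ((c + 1 : ℕ) : ZMod n)) (b + m * k))
      rw [e1]
      exact hh k
    · intro i
      obtain ⟨y, hy⟩ := h4 i
      refine ⟨y, fun k => ?_⟩
      have e1 : A + ((2 * i + 1 : ℕ) : ZMod n) = A + (2 * i : ℕ) + 1 := by push_cast; ring
      show (cay S).Adj (P (A + ((2 * i : ℕ) : ZMod n)) (y + m * k))
          (P (A + ((2 * i + 1 : ℕ) : ZMod n)) (y + 1 + m * k)) ∧
        (cay S).Adj (P (A + ((2 * i : ℕ) : ZMod n)) (y + 1 + m * k))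
          (P (A + ((2 * i + 1 : ℕ) : ZMod n)) (y + m * k))
      rw [e1]
      exact hy k
  exact (starZ_le (Nat.le_succ q)).trans ((starZ_wg (Nat.succ_pos q)).trans hW)

end Pool.Agent.Helper58.NW
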