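import Pool.Agent.Helper66.NW.PER

/-!
# NW-CRX, group half: coordinates on the lines, translates, alternation of the crossings
-/

set_option autoImplicit false

namespace Pool.Agent.Helper58.NW

open Pool.Agent.Helper52.Wq2 Pool.Agent.Helper61.NW Pool.Agent.Helper66.NW
open scoped Nat

universe u

variable {Γ : Type u} [Group Γ] {S : Set Γ} {h : Γ → ℤ} {s : Γ} {H n m : ℕ}

theorem adj_of (T : Two S h s H n m) {g g' : Γ} (hg : g⁻¹ * g' ∈ S) : (cay S).Adj g g' := by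
  refine (SimpleGraph.fromRel_adj _ _ _).2 ⟨?_, Or.inl hg⟩
  rintro rfl
  rw [inv_mul_cancel] at hg
  exact T.gen.2.2 hg

theorem adj_mul (x : Γ) {g g' : Γ} (hg : (cay S).Adj g g') : (cay S).Adj (x * g) (x * g') := by
  have h1 := (SimpleGraph.fromRel_adj _ _ _).1 hg
  refine (SimpleGraph.fromRel_adj _ _ _).2 ⟨fun h => h1.1 (mul_left_cancel h), ?_⟩
  have e : ∀ a b : Γ, (x * a)⁻¹ * (x * b) = a⁻¹ * b := by intro a b; group
  rw [e, e]
  exact h1.2

/-- Coordinates. -/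
theorem exists_P (T : Two S h s H n m) (e : (Γ ⧸ Subgroup.zpowers s) ≃ ZMod n) :
    ∃ P : ZMod n → ℤ → Γ, (∀ j y, e (P j y : Γ ⧸ Subgroup.zpowers s) = j ∧ h (P j y) / H = y) ∧
      ∀ (g : Γ) (j : ZMod n) (y : ℤ), e (g : Γ ⧸ Subgroup.zpowers s) = j → h g / H = y →
        g = P j y := by
  choose r hr using fun j : ZMod n => QuotientGroup.mk_surjective (e.symm j)
  refine ⟨fun j y => r j * s ^ (y - h (r j) / H), ?_, ?_⟩
  · intro j y
    refine ⟨?_, ?_⟩
    · have : (r j : Γ ⧸ Subgroup.zpowers s) = (r j * s ^ (y - h (r j) / H) : Γ) :=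
        coset_iff.2 ⟨_, rfl⟩
      rw [← this, hr, Equiv.apply_symm_apply]
    · rw [shift T]; ring
  · rintro g j y hg hy
    have h1 : (r j : Γ ⧸ Subgroup.zpowers s) = g := by
      rw [hr, ← hg, Equiv.symm_apply_apply]
    obtain ⟨k, rfl⟩ := coset_iff.1 h1
    rw [shift T] at hy
    have : k = y - h (r j) / H := by omega
    rw [this]

/-- A crossing between the lines `j` and `j'`. -/
def X (S : Set Γ) (h : Γ → ℤ) (s : Γ) (H n : ℕ) (e : (Γ ⧸ Subgroup.zpowers s) ≃ ZMod n)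
    (j j' : ZMod n) : Prop :=
  ∃ a b : Γ, e (a : Γ ⧸ Subgroup.zpowers s) = j ∧ e (b : Γ ⧸ Subgroup.zpowers s) = j' ∧
    h b = h a + H ∧ a⁻¹ * b ∈ S ∧ (a * s)⁻¹ * (b * s⁻¹) ∈ S

theorem coset_mul (g : Γ) (k : ℤ) :
    ((g * s ^ k : Γ) : Γ ⧸ Subgroup.zpowers s) = (g : Γ ⧸ Subgroup.zpowers s) :=
  (coset_iff.2 ⟨k, rfl⟩).symm

theorem X.symm (T : Two S h s H n m) {e : (Γ ⧸ Subgroup.zpowers s) ≃ ZMod n} {j j' : ZMod n}
    (hX : X S h s H n e j j') : X S h s H n e j' j := by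
  obtain ⟨a, b, ha, hb, hh, h1, h2⟩ := hX
  refine ⟨b * s⁻¹, a * s, ?_, ?_, ?_, ?_, ?_⟩
  · have := coset_mul (s := s) b (-1)
    rw [zpow_neg_one] at this
    rw [this, hb]
  · have := coset_mul (s := s) a 1
    rw [zpow_one] at this
    rw [this, ha]
  · rw [T.hom, T.hom, h_inv T, T.Hs, hh]; ring
  · have := T.gen.2.1 _ h2
    rwa [mul_inv_rev, inv_inv] at this
  · have := T.gen.2.1 _ h1
    rw [mul_inv_rev, inv_inv] at this
    rwa [inv_mul_cancel_right, mul_inv_cancel_right]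

theorem act_eq (x : Γ) {a b : Γ}
    (hab : (a : Γ ⧸ Subgroup.zpowers s) = b) :
    ((x * a : Γ) : Γ ⧸ Subgroup.zpowers s) = (x * b : Γ) := by
  obtain ⟨k, rfl⟩ := coset_iff.1 hab
  exact coset_iff.2 ⟨k, by rw [mul_assoc]⟩

theorem X.act (T : Two S h s H n m) {e : (Γ ⧸ Subgroup.zpowers s) ≃ ZMod n} {a b : Γ}
    (hX : X S h s H n e (e (a : Γ ⧸ Subgroup.zpowers s)) (e (b : Γ ⧸ Subgroup.zpowers s)))
    (x : Γ) : X S h s H n e (e ((x * a : Γ) : Γ ⧸ Subgroup.zpowers s))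
      (e ((x * b : Γ) : Γ ⧸ Subgroup.zpowers s)) := by
  obtain ⟨a', b', ha, hb, hh, h1, h2⟩ := hX
  refine ⟨x * a', x * b', ?_, ?_, ?_, ?_, ?_⟩
  · rw [act_eq x (e.injective ha)]
  · rw [act_eq x (e.injective hb)]
  · rw [T.hom, T.hom, hh]; ring
  · have : (x * a')⁻¹ * (x * b') = a'⁻¹ * b' := by group
    rwa [this]
  · have : (x * a' * s)⁻¹ * (x * b' * s⁻¹) = (a' * s)⁻¹ * (b' * s⁻¹) := by group
    rwa [this]

theorem X.nb {e : (Γ ⧸ Subgroup.zpowers s) ≃ ZMod n} (hc : IsCyc S s n e) {j j' : ZMod n}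
    (hX : X S h s H n e j j') (hne : j ≠ j') : j' = j + 1 ∨ j = j' + 1 := by
  obtain ⟨a, b, ha, hb, hh, h1, h2⟩ := hX
  rw [← ha, ← hb]
  refine (hc _ _).1 ((SimpleGraph.fromRel_adj _ _ _).2 ⟨?_, Or.inl ⟨a, a⁻¹ * b, h1, rfl, ?_⟩⟩)
  · intro h3
    exact hne (by rw [← ha, ← hb, h3])
  · rw [mul_inv_cancel_left]

/-- The crossings can be found in every second gap. -/
theorem alternate (T : Two S h s H n m) (hn : 3 ≤ n) {e : (Γ ⧸ Subgroup.zpowers s) ≃ ZMod n}
    (hc : IsCyc S s n e) {j₀ : ZMod n} (hX : X S h s H n e j₀ (j₀ + 1)) (i : ℕ) :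
    X S h s H n e (j₀ + (2 * i : ℕ)) (j₀ + (2 * i : ℕ) + 1) := by
  have h1ne : (1 : ZMod n) ≠ 0 := by
    have : Fact (1 < n) := ⟨by omega⟩
    exact one_ne_zero
  have h2ne : (2 : ZMod n) ≠ 0 := by
    intro h2
    have h3 : ((2 : ℕ) : ZMod n) = 0 := by exact_mod_cast h2
    rw [ZMod.natCast_eq_zero_iff] at h3
    have := Nat.le_of_dvd (by norm_num) h3
    omega
  induction i with
  | zero => simpa using hX
  | succ i ih =>
    set g : ZMod n := j₀ + (2 * i : ℕ) with hg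
    have hgg : j₀ + ((2 * (i + 1) : ℕ) : ZMod n) = g + 2 := by
      rw [hg]; push_cast; ring
    rw [hgg]
    obtain ⟨a, ha⟩ := QuotientGroup.mk_surjective (e.symm g)
    obtain ⟨b, hb⟩ := QuotientGroup.mk_surjective (e.symm (g + 1))
    obtain ⟨c, hcc⟩ := QuotientGroup.mk_surjective (e.symm (g + 2))
    have ea : e (a : Γ ⧸ Subgroup.zpowers s) = g := by rw [ha, Equiv.apply_symm_apply]
    have eb : e (b : Γ ⧸ Subgroup.zpowers s) = g + 1 := by rw [hb, Equiv.apply_symm_apply]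
    have ec : e (c : Γ ⧸ Subgroup.zpowers s) = g + 2 := by rw [hcc, Equiv.apply_symm_apply]
    have hinj : ∀ (x y z : Γ), e ((x * y : Γ) : Γ ⧸ Subgroup.zpowers s) =
        e ((x * z : Γ) : Γ ⧸ Subgroup.zpowers s) →
        e (y : Γ ⧸ Subgroup.zpowers s) = e (z : Γ ⧸ Subgroup.zpowers s) := by
      intro x y z hxy
      have := act_eq x⁻¹ (e.injective hxy)
      rw [inv_mul_cancel_left, inv_mul_cancel_left] at this
      rw [this]
    -- move the line `g` to the line `g + 2`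
    have X1 : X S h s H n e (g + 2) (e ((c * a⁻¹ * b : Γ) : Γ ⧸ Subgroup.zpowers s)) := by
      have := X.act T (a := a) (b := b) (e := e) (by rw [ea, eb]; exact ih) (c * a⁻¹)
      rwa [inv_mul_cancel_right, ec] at this
    have n1 : g + 2 ≠ e ((c * a⁻¹ * b : Γ) : Γ ⧸ Subgroup.zpowers s) := by
      intro h3
      have h4 := hinj (c * a⁻¹) a b (by rw [inv_mul_cancel_right, ec]; exact h3)
      rw [ea, eb] at h4
      exact h1ne (by simpa using h4.symm)
    rcases X.nb hc X1 n1 with h5 | h5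
    · rwa [h5] at X1
    have h6 : e ((c * a⁻¹ * b : Γ) : Γ ⧸ Subgroup.zpowers s) = g + 1 := by
      have : g + 2 = (g + 1) + 1 := by ring
      rw [this] at h5
      exact (add_right_cancel h5).symm
    rw [h6] at X1
    -- the line `g + 1` has crossings on both sides
    have Y1 : X S h s H n e (g + 1) g := X.symm T ih
    have Y2 : X S h s H n e (g + 1) (g + 2) := X.symm T X1
    have Z1 : X S h s H n e (g + 2) (e ((c * b⁻¹ * a : Γ) : Γ ⧸ Subgroup.zpowers s)) := by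
      have := X.act T (a := b) (b := a) (e := e) (by rw [ea, eb]; exact Y1) (c * b⁻¹)
      rwa [inv_mul_cancel_right, ec] at this
    have Z2 : X S h s H n e (g + 2) (e ((c * b⁻¹ * c : Γ) : Γ ⧸ Subgroup.zpowers s)) := by
      have := X.act T (a := b) (b := c) (e := e) (by rw [ec, eb]; exact Y2) (c * b⁻¹)
      rwa [inv_mul_cancel_right, ec] at this
    have m1 : g + 2 ≠ e ((c * b⁻¹ * a : Γ) : Γ ⧸ Subgroup.zpowers s) := by
      intro h3
      have h4 := hinj (c * b⁻¹) b a (by rw [inv_mul_cancel_right, ec]; exact h3)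
      rw [ea, eb] at h4
      exact h1ne (by simpa using h4)
    have m2 : g + 2 ≠ e ((c * b⁻¹ * c : Γ) : Γ ⧸ Subgroup.zpowers s) := by
      intro h3
      have h4 := hinj (c * b⁻¹) b c (by rw [inv_mul_cancel_right, ec]; exact h3)
      rw [ec, eb] at h4
      have h5 : (1 : ZMod n) = 2 := add_left_cancel h4
      exact h1ne (by linear_combination -h5)
    have m3 : e ((c * b⁻¹ * a : Γ) : Γ ⧸ Subgroup.zpowers s) ≠
        e ((c * b⁻¹ * c : Γ) : Γ ⧸ Subgroup.zpowers s) := by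
      intro h3
      have h4 := hinj (c * b⁻¹) a c h3
      rw [ec, ea] at h4
      exact h2ne (by simpa using h4)
    rcases X.nb hc Z1 m1 with h7 | h7
    · rwa [h7] at Z1
    rcases X.nb hc Z2 m2 with h8 | h8
    · rwa [h8] at Z2
    exact absurd (add_right_cancel (h7.symm.trans h8)) m3

end Pool.Agent.Helper58.NW
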