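import Pool.Agent.Helper58.NW.CRXG

/-!
# NW-CRX, group half: the columns
-/

set_option autoImplicit false

namespace Pool.Agent.Helper58.NW

open Pool.Agent.Helper52.Wq2 Pool.Agent.Helper61.NW Pool.Agent.Helper66.NW
open scoped Nat

universe u

variable {Γ : Type u} [Group Γ] {S : Set Γ} {h : Γ → ℤ} {s : Γ} {H n m : ℕ}

/-- Columns: all the information on the group which the routing needs. -/
theorem cols (T : Two S h s H n m) (hn : 3 ≤ n) (e : (Γ ⧸ Subgroup.zpowers s) ≃ ZMod n)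
    (hc : IsCyc S s n e) (hcr : ∃ j, Crs S h s H n e j) :
    ∃ (A : ZMod n) (P : ZMod n → ℤ → Γ),
      (∀ j y j' y', P j y = P j' y' → j = j' ∧ y = y') ∧
      (∀ j y, (cay S).Adj (P j y) (P j (y + 1))) ∧
      (∀ j, ∃ a b : ℤ, |a - b| ≤ 1 ∧ ∀ k : ℤ, (cay S).Adj (P j (a + m * k)) (P (j + 1) (b + m * k))) ∧
      ∀ i : ℕ, ∃ y : ℤ, ∀ k : ℤ,
        (cay S).Adj (P (A + (2 * i : ℕ)) (y + m * k)) (P (A + (2 * i : ℕ) + 1) (y + 1 + m * k)) ∧
        (cay S).Adj (P (A + (2 * i : ℕ)) (y + 1 + m * k)) (P (A + (2 * i : ℕ) + 1) (y + m * k)) := by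
  obtain ⟨P, hP, hu⟩ := exists_P T e
  obtain ⟨j₀, hj₀⟩ := hcr
  have hHpos : (0 : ℤ) < H := by exact_mod_cast T.Hpos
  have hs1 : ∀ j y, P j y * s = P j (y + 1) := by
    intro j y
    refine hu _ _ _ ?_ ?_
    · have := coset_mul (s := s) (P j y) 1
      rw [zpow_one] at this
      rw [this]; exact (hP j y).1
    · have := shift T (P j y) 1
      rw [zpow_one] at this
      rw [this, (hP j y).2]
  have htr : ∀ j y k, s ^ ((m : ℤ) * k) * P j y = P j (y + m * k) := by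
    intro j y k
    rw [← central T]
    refine hu _ _ _ ?_ ?_
    · rw [coset_mul]; exact (hP j y).1
    · rw [shift T, (hP j y).2]
  have hadj : ∀ j y j' y', (cay S).Adj (P j y) (P j' y') → ∀ k : ℤ,
      (cay S).Adj (P j (y + m * k)) (P j' (y' + m * k)) := by
    intro j y j' y' hh k
    rw [← htr, ← htr]
    exact adj_mul _ hh
  refine ⟨j₀, P, ?_, ?_, ?_, ?_⟩
  · intro j y j' y' hh
    have h1 := hP j y
    rw [hh] at h1
    exact ⟨h1.1.symm.trans (hP j' y').1, h1.2.symm.trans (hP j' y').2⟩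
  · intro j y
    rw [← hs1]
    refine adj_of T ?_
    rw [inv_mul_cancel_left]
    exact T.hs
  · intro j
    have hl : (Ln S s).Adj (e.symm j) (e.symm (j + 1)) :=
      (hc _ _).2 (Or.inl (by rw [Equiv.apply_symm_apply, Equiv.apply_symm_apply]))
    have key : ∀ g t : Γ, t ∈ S → ∀ i i' : ZMod n, (g : Γ ⧸ Subgroup.zpowers s) = e.symm i →
        ((g * t : Γ) : Γ ⧸ Subgroup.zpowers s) = e.symm i' →
        ∃ a b : ℤ, |a - b| ≤ 1 ∧ (cay S).Adj (P i a) (P i' b) := by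
      intro g t ht i i' h1 h2
      have h3 : g⁻¹ * (g * t) ∈ S := by rw [inv_mul_cancel_left]; exact ht
      refine ⟨h g / H, h (g * t) / H, ?_, ?_⟩
      · rw [abs_sub_comm]
        exact diff_le T h3
      · rw [← hu g i _ (by rw [h1, Equiv.apply_symm_apply]) rfl,
          ← hu (g * t) i' _ (by rw [h2, Equiv.apply_symm_apply]) rfl]
        exact adj_of T h3
    rcases ((SimpleGraph.fromRel_adj _ _ _).1 hl).2 with ⟨g, t, ht, h1, h2⟩ | ⟨g, t, ht, h1, h2⟩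
    · obtain ⟨a, b, hab, hh⟩ := key g t ht _ _ h1 h2
      exact ⟨a, b, hab, hadj _ _ _ _ hh⟩
    · obtain ⟨a, b, hab, hh⟩ := key g t ht _ _ h1 h2
      exact ⟨b, a, by rw [abs_sub_comm]; exact hab, hadj _ _ _ _ hh.symm⟩
  · intro i
    obtain ⟨a, b, ha, hb, hh, h1, h2⟩ := alternate T hn hc (j₀ := j₀) hj₀ i
    have hpos : h b / H = h a / H + 1 := by
      rw [hh, Int.add_ediv_of_dvd_right (dvd_refl _), Int.ediv_self hHpos.ne']
    have ea := hu a _ _ ha rfl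
    have eb := hu b _ _ hb rfl
    rw [hpos] at eb
    refine ⟨h a / H, fun k => ⟨hadj _ _ _ _ ?_ k, hadj _ _ _ _ ?_ k⟩⟩
    · rw [← ea, ← eb]
      exact adj_of T h1
    · have e1 := hs1 (j₀ + (2 * i : ℕ)) (h a / H)
      have e2 : b * s⁻¹ = P (j₀ + (2 * i : ℕ) + 1) (h a / H) := by
        have := hs1 (j₀ + (2 * i : ℕ) + 1) (h a / H)
        rw [← eb] at this
        rw [← this, mul_inv_cancel_right]
      rw [← ea] at e1
      rw [← e1, ← e2]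
      exact adj_of T h2

/-- The form which the routing uses. -/
theorem columns (T : Two S h s H n m) (hn : 3 ≤ n) (e : (Γ ⧸ Subgroup.zpowers s) ≃ ZMod n)
    (hc : IsCyc S s n e) (hcr : ∃ j, Crs S h s H n e j) (q : ℕ) (hq : 2 * q + 2 ≤ n) :
    ∃ P : ℤ → ℕ → Γ,
      (∀ y y' c c', c ≤ 2 * q + 1 → c' ≤ 2 * q + 1 → P y c = P y' c' → y = y' ∧ c = c') ∧
      (∀ y c, c ≤ 2 * q + 1 → (cay S).Adj (P y c) (P (y + 1) c)) ∧
      (∀ c, c ≤ 2 * q → ∃ a b : ℤ, |a - b| ≤ 1 ∧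
        ∀ k : ℤ, (cay S).Adj (P (a + (m : ℤ) * k) c) (P (b + (m : ℤ) * k) (c + 1))) ∧
      ∀ i, i < q → ∃ p : ℤ, ∀ k : ℤ,
        (cay S).Adj (P (p + (m : ℤ) * k) (2 * i + 1)) (P (p + 1 + (m : ℤ) * k) (2 * i + 2)) ∧
        (cay S).Adj (P (p + 1 + (m : ℤ) * k) (2 * i + 1)) (P (p + (m : ℤ) * k) (2 * i + 2)) := by
  obtain ⟨A, P, h1, h2, h3, h4⟩ := cols T hn e hc hcr
  refine ⟨fun y c => P (A - 1 + (c : ℕ)) y, ?_, ?_, ?_, ?_⟩
  · intro y y' c c' hc1 hc2 hh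
    obtain ⟨h5, h6⟩ := h1 _ _ _ _ hh
    refine ⟨h6, ?_⟩
    have h7 : ((c : ℕ) : ZMod n) = (c' : ℕ) := add_left_cancel h5
    rw [ZMod.natCast_eq_natCast_iff'] at h7
    rwa [Nat.mod_eq_of_lt (by omega), Nat.mod_eq_of_lt (by omega)] at h7
  · intro y c _
    exact h2 _ _
  · intro c _
    obtain ⟨a, b, hab, hh⟩ := h3 (A - 1 + (c : ℕ))
    refine ⟨a, b, hab, fun k => ?_⟩
    have e1 : A - 1 + ((c + 1 : ℕ) : ZMod n) = A - 1 + (c : ℕ) + 1 := by push_cast; ring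
    show (cay S).Adj (P (A - 1 + (c : ℕ)) (a + m * k)) (P (A - 1 + ((c + 1 : ℕ) : ZMod n)) (b + m * k))
    rw [e1]
    exact hh k
  · intro i _
    obtain ⟨y, hy⟩ := h4 i
    have e1 : A - 1 + ((2 * i + 1 : ℕ) : ZMod n) = A + (2 * i : ℕ) := by push_cast; ring
    have e2 : A - 1 + ((2 * i + 2 : ℕ) : ZMod n) = A + (2 * i : ℕ) + 1 := by push_cast; ring
    refine ⟨y, fun k => ?_⟩
    show (cay S).Adj (P (A - 1 + ((2 * i + 1 : ℕ) : ZMod n)) (y + m * k))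
        (P (A - 1 + ((2 * i + 2 : ℕ) : ZMod n)) (y + 1 + m * k)) ∧
      (cay S).Adj (P (A - 1 + ((2 * i + 1 : ℕ) : ZMod n)) (y + 1 + m * k))
        (P (A - 1 + ((2 * i + 2 : ℕ) : ZMod n)) (y + m * k))
    rw [e1, e2]
    exact hy k

end Pool.Agent.Helper58.NW
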